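import Pool.Agent.CrownPoset.Count

/-!
# Log-concavity of the `f`-vector of the order polytope of every crown poset

`Crown n` is the crown poset `C_{2n}` on the residues modulo `2n` (the odd elements are minimal, and
each odd element `a` is covered by `a + 1` and `a - 1`), `orderPolytope P` is the order polytope in
`ℝ^P`, and `faceNumber Q k` is the number of exposed faces of `Q` of dimension `k` (the empty face has
dimension `-1`, and `Q` itself counts).
-/

namespace Pool.Agent.Results.MP_00f856_co.LogConcave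

open Pool.Agent.CrownPoset Polynomial

theorem faceNumber_eq (n : ℕ) [NeZero n] (k : ℕ) :
    (faceNumber (orderPolytope (Crown n)) (k : ℤ) : ℝ) = (crownPoly n).coeff k := by
  classical
  rw [orderPolytope_eq, faceNumber_polyh pat (fun x _ y _ => pat_eq_iff x y) k, ← sum_faces,
    finsetSum_coeff]
  have h1 : {p : Pat n | ∃ x ∈ polyh (cA (n := n)) cb, pat x = p ∧
      Module.finrank ℝ (kerT cA (tight cA cb x)) = k} =
      ↑((Finset.univ.filter (fun π : Pat n => Valid π ∧ ¬ Bad π)).filter
        (fun π => Module.finrank ℝ (Kp π) = k)) := by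
    ext π
    rw [← orderPolytope_eq]
    simp only [Set.mem_ofPred_eq, Finset.coe_filter, Finset.mem_filter, Finset.mem_univ, true_and]
    rw [← realizable_iff]
    constructor
    · rintro ⟨x, hx, rfl, hk⟩
      rw [kerT_eq] at hk
      exact ⟨⟨x, hx, rfl⟩, hk⟩
    · rintro ⟨⟨x, hx, rfl⟩, hk⟩
      exact ⟨x, hx, rfl, by rw [kerT_eq]; exact hk⟩
  rw [h1, Set.ncard_coe_finset]
  simp only [coeff_X_pow]
  rw [Finset.sum_boole]
  congr 2
  refine Finset.filter_congr fun π _ => ?_
  exact eq_comm

/-- **Log-concavity of the `f`-vector of `O(C_{2n})`.**  For every `n ≥ 1` the entries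
`f_{-1}, f_0, …, f_{2n}` of the `f`-vector of the order polytope of the crown poset `C_{2n}` are
positive, and `f_k² ≥ f_{k-1} f_{k+1}` for all `-1 < k < 2n`. -/
theorem result (n : ℕ) (hn : 1 ≤ n) :
    (∀ k : ℤ, -1 ≤ k → k ≤ 2 * n → 0 < faceNumber (orderPolytope (Crown n)) k) ∧
    (∀ k : ℤ, -1 < k → k < 2 * n →
      faceNumber (orderPolytope (Crown n)) (k - 1) * faceNumber (orderPolytope (Crown n)) (k + 1) ≤
        faceNumber (orderPolytope (Crown n)) k ^ 2) := by
  have : NeZero n := ⟨by omega⟩
  have hm1 : faceNumber (orderPolytope (Crown n)) (-1) = 1 := faceNumber_neg_one _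
  constructor
  · intro k h1 h2
    rcases eq_or_lt_of_le h1 with h | h
    · rw [← h, hm1]; exact one_pos
    · obtain ⟨j, rfl⟩ : ∃ j : ℕ, k = j := ⟨k.toNat, by omega⟩
      have := crown_pos n (by omega) j (by omega)
      rw [← faceNumber_eq] at this
      exact_mod_cast this
  · intro k h1 h2
    obtain ⟨j, rfl⟩ : ∃ j : ℕ, k = j := ⟨k.toNat, by omega⟩
    rcases j with _ | j
    · have h3 := crown_lc_zero n (by omega)
      rw [← faceNumber_eq, ← faceNumber_eq] at h3
      have e1 : ((0 : ℕ) : ℤ) - 1 = -1 := by norm_num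
      have e2 : ((0 : ℕ) : ℤ) + 1 = ((1 : ℕ) : ℤ) := by norm_num
      rw [e1, e2, hm1]
      exact_mod_cast h3
    · have h3 := crown_lc n (by omega) j
      rw [← faceNumber_eq, ← faceNumber_eq, ← faceNumber_eq] at h3
      have e1 : ((j + 1 : ℕ) : ℤ) - 1 = (j : ℤ) := by push_cast; ring
      have e2 : ((j + 1 : ℕ) : ℤ) + 1 = ((j + 2 : ℕ) : ℤ) := by push_cast; ring
      rw [e1, e2]
      exact_mod_cast h3

end Pool.Agent.Results.MP_00f856_co.LogConcave
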